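import Pool.Agent.H7.HilbFinal
import Pool.Agent.H68.Gal.Glue

/-!
# MP_042496_ag, Q1: an explicit component of `Hilb^107(𝔸^12)` which is not Galois-fixed

* `Pool.H7.HilbRigid.HilbPt k n d`: the closed points of `Hilb^d(𝔸ⁿ_k)` (ideals of `k[x_1,…,x_n]` of
  colength `d`), with the Zariski topology (generated by the basic open subsets of the standard
  affine charts `U_b`, `b` a tuple of `d` monomials).
* `Pool.H7.HilbRigid.conj σ`: the action of a field automorphism `σ` of `k`.
* `Pool.Agent.H68.Gal.I w`: the ideal generated by `33` explicit quadrics in `12` variables with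
  coefficients in `ℤ[w]`.

For a primitive cube root of unity `w`, the ideal `I w` has colength `107`, and no irreducible
component of `Hilb^107(𝔸^12)` through the point `[I w]` is stable under any `σ ∈ Gal(ℚ̄/ℚ)` which
moves `w`.
-/

set_option autoImplicit false

namespace Pool.Agent.Results.MP_042496_ag.GaloisMovedComponent

open Pool.H7.HilbRigid Pool.Agent.H68.Gal

theorem result : ∃ w : AlgebraicClosure ℚ, w ^ 2 + w + 1 = 0 ∧
    ∃ J : HilbPt (AlgebraicClosure ℚ) 12 107, J.ideal = I w ∧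
      (∃ σ : AlgebraicClosure ℚ ≃ₐ[ℚ] AlgebraicClosure ℚ, σ w ≠ w) ∧
      (∃ Z ∈ irreducibleComponents (HilbPt (AlgebraicClosure ℚ) 12 107), J ∈ Z) ∧
      ∀ Z ∈ irreducibleComponents (HilbPt (AlgebraicClosure ℚ) 12 107), J ∈ Z →
        ∀ σ : AlgebraicClosure ℚ ≃ₐ[ℚ] AlgebraicClosure ℚ, σ w ≠ w →
          conj (σ : AlgebraicClosure ℚ ≃+* AlgebraicClosure ℚ) '' Z ∈
              irreducibleComponents (HilbPt (AlgebraicClosure ℚ) 12 107) ∧
            conj (σ : AlgebraicClosure ℚ ≃+* AlgebraicClosure ℚ) '' Z ≠ Z := by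
  obtain ⟨w, hw⟩ := exists_w
  obtain ⟨J, hJ⟩ := exists_pt bas (fun _ h => indep_bas h) (fun _ h => span_bas h) hw
  refine ⟨w, hw, J, hJ, exists_move hw,
    ⟨irreducibleComponent J, irreducibleComponent_mem_irreducibleComponents J,
      mem_irreducibleComponent⟩, ?_⟩
  intro Z hZ hJZ σ hσ
  refine ⟨conj_image_mem _ hZ, ?_⟩
  exact not_fixed_of bas (fun _ h => hom h) (fun _ h => indep_bas h) (fun _ h => span_bas h)
    bas_pairs (fun _ h => rigid h) hw J hJ (σ : AlgebraicClosure ℚ ≃+* AlgebraicClosure ℚ) hσ Z hZ hJZ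

end Pool.Agent.Results.MP_042496_ag.GaloisMovedComponent
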